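import Pool.Agent.Helper86.TH.Stmts
import Pool.Agent.Helper86.TH.Basic4

/-! # Row F2: `F[1 - u]` through the diagonal operator `Nu` -/

set_option linter.unusedSectionVars false

namespace TH48

open TH MvPolynomial Finset

noncomputable section

variable {K : Type*} [Field K] [CharZero K]

theorem Bn_one_apply (hDX : ST_DX K) {q t : K} (h : Gn q t) (F : Sy K) :
    Bn q t 1 F = -(Dk q t 1 F) := by
  have hM := h.Mj_ne 0
  have h1 := LinearMap.congr_fun (hDX q t 0) F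
  rw [zero_add, Module.End.mul_apply, LinearMap.add_apply, Module.End.mul_apply,
    LinearMap.smul_apply, mu_apply, mu_apply] at h1
  have h2 : Bn q t 1 F = Del q t (X 0 * F) - X 0 * Del q t F := rfl
  have h4 : ∀ G : Sy K, Del q t G = (Mj q t 0)⁻¹ • (G - Dk q t 0 G) := fun G => rfl
  rw [h2, h4, h4, h1, mul_smul_comm, ← smul_sub]
  have h3 : X 0 * F - (X 0 * Dk q t 0 F + Mj q t 0 • Dk q t 1 F) - X 0 * (F - Dk q t 0 F)
      = -(Mj q t 0 • Dk q t 1 F) := by ring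
  rw [h3, smul_neg, smul_smul, inv_mul_cancel₀ hM, one_smul]

theorem Nu_up (q t u : K) {μ : Par} {i : ℕ} (h : Adb μ i) :
    Nu q t u (up μ i) = Nu q t u μ * (1 - u * zc q t μ i) := by
  rw [Nu, cprod_up h, Nu, zc, mul_comm (q ^ μ.1 i)]

theorem Nu_Bn (hBM : ST_BM K) {q t : K} (h : Gn q t) (b : Module.Basis Par K (Sy K))
    (hb : MB q t b) (u : K) (s : ℕ) :
    dg b (Nu q t u) * Bn q t s = (Bn q t s - u • Bn q t (s + 1)) * dg b (Nu q t u) := by
  refine b.ext fun μ => ?_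
  obtain ⟨d, hd, -, -⟩ := hb.pieri μ
  have h1 := hBM q t h b hb.toIsE μ d hd
  rw [Module.End.mul_apply, Module.End.mul_apply, dg_apply_basis, map_smul, LinearMap.sub_apply,
    LinearMap.smul_apply, h1 s, h1 (s + 1), map_sum, Finset.smul_sum, ← Finset.sum_sub_distrib,
    Finset.smul_sum]
  refine Finset.sum_congr rfl fun i hi => ?_
  rw [map_smul, dg_apply_basis, Nu_up q t u (mem_ads.1 hi), smul_smul, smul_smul, ← sub_smul,
    smul_smul]
  congr 1
  ring

theorem Nu_Bn_apply (hBM : ST_BM K) {q t : K} (h : Gn q t) (b : Module.Basis Par K (Sy K))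
    (hb : MB q t b) (u : K) (s : ℕ) (G : Sy K) :
    dg b (Nu q t u) (Bn q t s G)
      = Bn q t s (dg b (Nu q t u) G) - u • Bn q t (s + 1) (dg b (Nu q t u) G) :=
  LinearMap.congr_fun (Nu_Bn hBM h b hb u s) G

theorem ep_sub_smul (u v : K) (A B : Sy K) : ep v (A - u • B) = ep v A - u * ep v B := by
  rw [map_sub, map_smul, smul_eq_mul]

theorem ep_zero_X : ep (0 : K) (X 0 : Sy K) = 1 := by
  simp [ep, ev]

theorem f_e1 (hBM : ST_BM K) (hEB : ST_EB K) {q t : K} (h : Gn q t)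
    (b : Module.Basis Par K (Sy K)) (hb : MB q t b) (u : K) (G : Sy K) :
    ep 0 (dg b (Nu q t u) (X 0 * G)) = (1 - u) * ep 0 (dg b (Nu q t u) G) := by
  have hM := h.Mj_ne 0
  have h1 := Nu_Bn_apply hBM h b hb u 0 G
  have h2 : Bn q t 0 G = X 0 * G := rfl
  have h3 : Bn q t 0 (dg b (Nu q t u) G) = X 0 * dg b (Nu q t u) G := rfl
  rw [h2, h3] at h1
  rw [h1, ep_sub_smul, map_mul, zero_add, (hEB q t hM _).1, ep_zero_X]
  ring

theorem f_D1 (hBM : ST_BM K) (hEB : ST_EB K) (hDX : ST_DX K) {q t : K} (h : Gn q t)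
    (b : Module.Basis Par K (Sy K)) (hb : MB q t b) (u : K) (G : Sy K) :
    ep 0 (dg b (Nu q t u) (Dk q t 1 G))
      = u * ep 0 (dg b (Nu q t u) (Dk q t 0 G)) - ep 0 (dg b (Nu q t u) G) := by
  have hM := h.Mj_ne 0
  have hB : Dk q t 1 G = -(Bn q t 1 G) := by rw [Bn_one_apply hDX h, neg_neg]
  have h1 := Nu_Bn_apply hBM h b hb u 1 G
  have hc : dg b (Nu q t u) (Dk q t 0 G) = Dk q t 0 (dg b (Nu q t u) G) := by
    have hcm := dg_comm b (Nu q t u) (fun μ => 1 - Mj q t 0 * Ps q t μ 0)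
    rw [← Dk_zero_eq_dg hb.toIsE] at hcm
    have hcm2 := LinearMap.congr_fun hcm G
    rwa [Module.End.mul_apply, Module.End.mul_apply] at hcm2
  have h5 := hEB q t hM (dg b (Nu q t u) G)
  have h6 : ep 0 (Bn q t (1 + 1) (dg b (Nu q t u) G)) = ep 0 (Dk q t 0 (dg b (Nu q t u) G)) := h5.2
  rw [hB, map_neg, h1, map_neg, ep_sub_smul, h5.1, h6, hc]
  ring

theorem st_F2 (hU : ST_U K) (hBM : ST_BM K) (hEB : ST_EB K) (hDX : ST_DX K) : ST_F2 K := by
  intro q t h b hb u F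
  have hM := h.Mj_ne 0
  have e3 : ep (0 : K) (dg b (Nu q t u) 1) = 1 := by
    have hP : b P0 = 1 := hb.toIsE.b_P0
    have h1 : dg b (Nu q t u) 1 = Nu q t u P0 • (1 : Sy K) := by
      rw [← hP, dg_apply_basis]
    have h2 : Nu q t u P0 = 1 := by simp [Nu, cprod, P0]
    rw [h1, h2, one_smul, map_one]
  have h6 := hU q t hM u ((ep (0 : K)).toLinearMap ∘ₗ dg b (Nu q t u))
    (fun G => f_e1 hBM hEB h b hb u G) (fun G => f_D1 hBM hEB hDX h b hb u G) F
  have h7 : ep 0 (dg b (Nu q t u) F) = ep 0 (dg b (Nu q t u) 1) * ep u F := h6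
  rw [h7, e3, one_mul]

end

end TH48
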